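import Pool.Agent.H39.LOB.Main

/-!
# Trees in which every vertex is at distance at most two from a centre
-/

set_option autoImplicit false

namespace Lob

open Finset

theorem harmonious_centre {V : Type} [Fintype V] (G : SimpleGraph V) (hG : G.IsTree) (c : V)
    (hc : ∀ v, v = c ∨ G.Adj c v ∨ ∃ x, G.Adj c x ∧ G.Adj x v) (m L : ℕ)
    (hm : {x | G.Adj c x ∧ ∃ y, y ≠ c ∧ G.Adj x y}.ncard = m)
    (hL : {x | G.Adj c x ∧ ∀ y, G.Adj x y → y = c}.ncard = L)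
    (h3 : 3 ≤ m) (h : (Odd m ∧ m ≤ L) ∨ (Even m ∧ 2 * m ≤ L + 4)) : Harmonious G := by
  classical
  have hex : ∀ v, ∃ p, v ≠ c → (G.Adj v p ∧ ((G.Adj c v ∧ p = c) ∨ (¬ G.Adj c v ∧ G.Adj c p))) := by
    intro v
    by_cases hv : v = c
    · exact ⟨c, fun h => absurd hv h⟩
    · by_cases hcv : G.Adj c v
      · exact ⟨c, fun _ => ⟨hcv.symm, Or.inl ⟨hcv, rfl⟩⟩⟩
      · rcases hc v with h | h | ⟨x, hx1, hx2⟩
        · exact absurd h hv
        · exact absurd h hcv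
        · exact ⟨x, fun _ => ⟨hx2.symm, Or.inr ⟨hcv, hx1⟩⟩⟩
  choose par hpar using hex
  -- every edge is `v, par v`
  have hsurj : Function.Surjective (fun v : {v : V // v ≠ c} =>
      (⟨s(v.1, par v.1), (SimpleGraph.mem_edgeSet G).mpr (hpar v.1 v.2).1⟩ : G.edgeSet)) := by
    have hinj : Function.Injective (fun v : {v : V // v ≠ c} =>
      (⟨s(v.1, par v.1), (SimpleGraph.mem_edgeSet G).mpr (hpar v.1 v.2).1⟩ : G.edgeSet)) := by
      rintro ⟨v, hv⟩ ⟨w, hw⟩ hvw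
      have h1 : s(v, par v) = s(w, par w) := congrArg Subtype.val hvw
      rw [Sym2.eq_iff] at h1
      rcases h1 with ⟨h1, -⟩ | ⟨h1, h2⟩
      · exact Subtype.ext h1
      · exfalso
        have a1 := (hpar v hv).2
        have a2 := (hpar w hw).2
        rw [h2] at a1
        rw [← h1] at a2
        rcases a1 with ⟨b1, b2⟩ | ⟨b1, b2⟩
        · exact hw b2
        · rcases a2 with ⟨c1, c2⟩ | ⟨c1, c2⟩
          · exact hv c2
          · exact c1 b2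
    have hcard : Fintype.card {v : V // v ≠ c} = Fintype.card G.edgeSet := by
      have h1 := hG.card_edgeFinset
      rw [Fintype.card_subtype_compl, Fintype.card_subtype_eq, ← h1, SimpleGraph.edgeFinset,
        Set.toFinset_card]
      simp
    exact ((Fintype.bijective_iff_injective_and_card _).mpr ⟨hinj, hcard⟩).2
  have hedge : ∀ a b, G.Adj a b → (a ≠ c ∧ par a = b) ∨ (b ≠ c ∧ par b = a) := by
    intro a b hab
    obtain ⟨⟨v, hv⟩, hvab⟩ := hsurj ⟨s(a, b), (SimpleGraph.mem_edgeSet G).mpr hab⟩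
    have h1 : s(v, par v) = s(a, b) := congrArg Subtype.val hvab
    rw [Sym2.eq_iff] at h1
    rcases h1 with ⟨h1, h2⟩ | ⟨h1, h2⟩
    · left
      rw [← h1, ← h2]
      exact ⟨hv, rfl⟩
    · right
      rw [← h1, ← h2]
      exact ⟨hv, rfl⟩
  have hparc : ∀ v, G.Adj c v → par v = c := by
    intro v hcv
    rcases (hpar v hcv.ne.symm).2 with ⟨-, h⟩ | ⟨h, -⟩
    · exact h
    · exact absurd hcv h
  obtain ⟨XS, hXS⟩ : ∃ XS : Finset V, ∀ v, v ∈ XS ↔ (G.Adj c v ∧ ∃ y, y ≠ c ∧ G.Adj v y) :=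
    ⟨Finset.univ.filter (fun v => G.Adj c v ∧ ∃ y, y ≠ c ∧ G.Adj v y), fun v => by simp⟩
  obtain ⟨LS, hLS⟩ : ∃ LS : Finset V, ∀ v, v ∈ LS ↔ (G.Adj c v ∧ ∀ y, G.Adj v y → y = c) :=
    ⟨Finset.univ.filter (fun v => G.Adj c v ∧ ∀ y, G.Adj v y → y = c), fun v => by simp⟩
  obtain ⟨YS, hYS⟩ : ∃ YS : Finset V, ∀ v, v ∈ YS ↔ (v ≠ c ∧ ¬ G.Adj c v) :=
    ⟨Finset.univ.filter (fun v => v ≠ c ∧ ¬ G.Adj c v), fun v => by simp⟩
  have hm' : XS.card = m := by
    rw [← hm, ← Set.ncard_coe_finset]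
    congr 1
    ext v
    rw [Finset.mem_coe, hXS]
    rfl
  have hL' : LS.card = L := by
    rw [← hL, ← Set.ncard_coe_finset]
    congr 1
    ext v
    rw [Finset.mem_coe, hLS]
    rfl
  have hYX : ∀ v ∈ YS, par v ∈ XS := by
    intro v hv
    obtain ⟨h1, h2⟩ := (hYS v).mp hv
    obtain ⟨h4, h5⟩ := hpar v h1
    rcases h5 with ⟨h5, -⟩ | ⟨-, h5⟩
    · exact absurd h5 h2
    · exact (hXS _).mpr ⟨h5, v, h1, h4.symm⟩
  refine harmonious_of_data G hG c par (fun v hv => (hpar v hv).1) hedge XS LS YS ?_ ?_ ?_ ?_ m L hm'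
    (by omega) hL' (by omega) ?_
  · intro v
    by_cases h1 : v = c
    · exact Or.inl h1
    · by_cases h2 : G.Adj c v
      · by_cases h4 : ∃ y, y ≠ c ∧ G.Adj v y
        · exact Or.inr (Or.inl ((hXS v).mpr ⟨h2, h4⟩))
        · refine Or.inr (Or.inr (Or.inl ((hLS v).mpr ⟨h2, fun y hy => ?_⟩)))
          by_contra hy'
          exact h4 ⟨y, hy', hy⟩
      · exact Or.inr (Or.inr (Or.inr ((hYS v).mpr ⟨h1, h2⟩)))
  · intro v hv
    obtain ⟨h1, y, hy, hvy⟩ := (hXS v).mp hv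
    refine ⟨h1.ne.symm, hparc v h1, ?_, ?_⟩
    · intro h2
      exact hy (((hLS v).mp h2).2 y hvy)
    · intro h2
      exact ((hYS v).mp h2).2 h1
  · intro v hv
    obtain ⟨h1, h2⟩ := (hLS v).mp hv
    exact ⟨h1.ne.symm, hparc v h1, fun h4 => ((hYS v).mp h4).2 h1⟩
  · intro v hv
    exact ⟨((hYS v).mp hv).1, hYX v hv⟩
  · intro k hk hk2
    refine data_all m L h3 k hk ?_ h
    intro i hi
    obtain ⟨v, hv, hkv⟩ := hk2 i hi
    rw [hkv, Nat.one_le_iff_ne_zero, ← Nat.pos_iff_ne_zero, Finset.card_pos]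
    obtain ⟨h1, y, hy, hvy⟩ := (hXS v).mp hv
    rcases hedge v y hvy with ⟨-, h2⟩ | ⟨h2, h4⟩
    · rw [hparc v h1] at h2
      exact absurd h2.symm hy
    · refine ⟨y, Finset.mem_filter.mpr ⟨(hYS y).mpr ⟨h2, fun h5 => ?_⟩, h4⟩⟩
      rw [hparc y h5] at h4
      exact h1.ne h4

end Lob
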