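import Pool.Agent.H39.LOB.Flow

/-!
# The integer configurations
-/

set_option autoImplicit false

namespace Lob

open Finset

theorem Flow.congr {S T S' T' : Finset ℤ} {s s' : Multiset ℤ} (h : Flow S T s) (h1 : S' = S)
    (h2 : T' = T) (h3 : s' = s) : Flow S' T' s' := by
  subst h1 h2 h3
  exact h

/-- constant displacement on an interval -/
theorem Flow.const (a d : ℤ) (n : ℕ) : Flow (Ico a (a + n)) (Ico (a + d) (a + d + n)) (n • {d}) := by
  induction n with
  | zero => simpa using Flow.empty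
  | succ n ih =>
    have f1 := ih.union (Flow.single (a + n) d) (by
      rw [Finset.disjoint_left]
      intro x hx hx'
      simp only [Finset.mem_Ico, Finset.mem_singleton] at hx hx'
      omega) (by
      rw [Finset.disjoint_left]
      intro x hx hx'
      simp only [Finset.mem_Ico, Finset.mem_singleton] at hx hx'
      omega)
    refine f1.congr ?_ ?_ ?_
    · ext x
      simp only [Finset.mem_union, Finset.mem_Ico, Finset.mem_singleton]
      push_cast
      omega
    · ext x
      simp only [Finset.mem_union, Finset.mem_Ico, Finset.mem_singleton]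
      push_cast
      omega
    · rw [succ_nsmul]

/-- every second point of an interval -/
noncomputable def Ev (a : ℤ) (n : ℕ) : Finset ℤ := (Ico a (a + 2 * n)).filter (fun y => (y - a) % 2 = 0)

theorem mem_Ev {a : ℤ} {n : ℕ} {y : ℤ} : y ∈ Ev a n ↔ (a ≤ y ∧ y < a + 2 * n) ∧ (y - a) % 2 = 0 := by
  unfold Ev
  rw [Finset.mem_filter, Finset.mem_Ico]

theorem Flow.ev (a : ℤ) (n : ℕ) : Flow (Ev a n) (Ev (a + 2) n) (n • {2}) := by
  induction n with
  | zero =>
    refine Flow.empty.congr ?_ ?_ (by simp)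
    · ext x; rw [mem_Ev]; simp
    · ext x; rw [mem_Ev]; simp
  | succ n ih =>
    have f1 := ih.union (Flow.single (a + 2 * n) 2) (by
      rw [Finset.disjoint_left]
      intro x hx hx'
      rw [mem_Ev] at hx
      rw [Finset.mem_singleton] at hx'
      omega) (by
      rw [Finset.disjoint_left]
      intro x hx hx'
      rw [mem_Ev] at hx
      rw [Finset.mem_singleton] at hx'
      omega)
    refine f1.congr ?_ ?_ ?_
    · ext x
      rw [Finset.mem_union, mem_Ev, mem_Ev, Finset.mem_singleton]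
      push_cast
      omega
    · ext x
      rw [Finset.mem_union, mem_Ev, mem_Ev, Finset.mem_singleton]
      push_cast
      omega
    · rw [succ_nsmul]

theorem closed_rot (n : ℕ) : Closed (2 * n + 1) (n • {((n : ℤ) + 1)} + (n + 1) • {-(n : ℤ)}) := by
  intro a
  have f1 := Flow.const a ((n : ℤ) + 1) n
  have f2 := Flow.const (a + n) (-(n : ℤ)) (n + 1)
  have f3 := f1.union f2 (by
      rw [Finset.disjoint_left]
      intro x hx hx'
      simp only [Finset.mem_Ico] at hx hx'
      omega) (by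
      rw [Finset.disjoint_left]
      intro x hx hx'
      simp only [Finset.mem_Ico] at hx hx'
      push_cast at hx hx'
      omega)
  refine f3.congr ?_ ?_ rfl
  · ext x
    simp only [Finset.mem_union, Finset.mem_Ico]
    push_cast
    omega
  · ext x
    simp only [Finset.mem_union, Finset.mem_Ico]
    push_cast
    omega

theorem card_mult (n : ℕ) (k : ℕ → ℕ) : Multiset.card (mult n k) = ∑ i ∈ Finset.range n, k i := by
  induction n with
  | zero => simp [mult]
  | succ n ih =>
    rw [mult_succ, Multiset.card_add, ih, Multiset.card_nsmul, Multiset.card_singleton,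
      Finset.sum_range_succ, mul_one]

/-- The core configuration with an odd number `n = 2p + 1` of labels. -/
theorem core (p : ℕ) (k : ℕ → ℕ) (hk : ∀ i j, i ≤ j → j < 2 * p + 1 → k j ≤ k i)
    (h1 : ∀ i < 2 * p + 1, 1 ≤ k i) :
    ∃ D E : ℕ, ∑ i ∈ Finset.range (2 * p + 1), k i = D + E + (2 * p + 1) ∧
      Flow (Ico (-(2 * p + 1) - (D : ℤ)) (-(2 * p + 1) + 1) ∪ Ico (2 * p + 2) (4 * p + 2 + (E : ℤ)))
        ((Ioc (-(2 * p + 1) - (D : ℤ)) (-(2 * p + 1)) ∪ {0}) ∪ Ico (2 * p + 2) (4 * p + 2 + (E : ℤ)))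
        (mult (2 * p + 1) k) := by
  have e1 := mult_peel (2 * p + 1) k 1 h1
  rw [one_smul, full_succ] at e1
  obtain ⟨D, E, s, t, h2, h3, h4⟩ := packing (2 * p + 1) (fun i => k i - 1)
    fun i j hij hj => Nat.sub_le_sub_right (hk i j hij hj) _
  rw [h2] at e1
  have e0 : lab (2 * p) = 2 * p + 1 := by
    unfold lab
    rw [if_pos (by omega)]
    push_cast
    rfl
  rw [e0] at e1
  have f1 := h3 (-(2 * p + 1) - (D : ℤ))
  have f2 := Flow.single (-(2 * (p : ℤ) + 1)) (2 * p + 1)
  have f3 := closed_full p (2 * p + 2)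
  have f4 := h4 (4 * p + 2)
  have g1 := f1.union f2 (by
      rw [Finset.disjoint_left]
      intro x hx hx'
      simp only [Finset.mem_Ico, Finset.mem_singleton] at hx hx'
      omega) (by
      rw [Finset.disjoint_left]
      intro x hx hx'
      simp only [Finset.mem_Ioc, Finset.mem_singleton] at hx hx'
      omega)
  have g2 := f3.union f4 (by
      rw [Finset.disjoint_left]
      intro x hx hx'
      simp only [Finset.mem_Ico] at hx hx'
      push_cast at hx hx'
      omega) (by
      rw [Finset.disjoint_left]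
      intro x hx hx'
      simp only [Finset.mem_Ico] at hx hx'
      push_cast at hx hx'
      omega)
  have g3 := g1.union g2 (by
      rw [Finset.disjoint_left]
      intro x hx hx'
      simp only [Finset.mem_union, Finset.mem_Ico, Finset.mem_singleton] at hx hx'
      push_cast at hx hx'
      omega) (by
      rw [Finset.disjoint_left]
      intro x hx hx'
      simp only [Finset.mem_union, Finset.mem_Ico, Finset.mem_Ioc, Finset.mem_singleton] at hx hx'
      push_cast at hx hx'
      omega)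
  have g4 : Flow (Ico (-(2 * p + 1) - (D : ℤ)) (-(2 * p + 1) + 1) ∪ Ico (2 * p + 2) (4 * p + 2 + (E : ℤ)))
        ((Ioc (-(2 * p + 1) - (D : ℤ)) (-(2 * p + 1)) ∪ {0}) ∪ Ico (2 * p + 2) (4 * p + 2 + (E : ℤ)))
        (mult (2 * p + 1) k) := by
    refine g3.congr ?_ ?_ ?_
    · ext x
      simp only [Finset.mem_union, Finset.mem_Ico, Finset.mem_singleton]
      push_cast
      omega
    · ext x
      simp only [Finset.mem_union, Finset.mem_Ico, Finset.mem_Ioc, Finset.mem_singleton]
      push_cast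
      omega
    · rw [e1]
      abel
  refine ⟨D, E, ?_, g4⟩
  rw [← card_mult, g4.card_eq, Finset.card_union_of_disjoint, Int.card_Ico, Int.card_Ico]
  · omega
  · rw [Finset.disjoint_left]
    intro x hx hx'
    simp only [Finset.mem_Ico] at hx hx'
    omega

/-- The configuration which gives a harmonious labeling. -/
def Data (m L : ℕ) (k : ℕ → ℕ) : Prop :=
  ∃ (x : ℕ → ℤ) (Y : Finset ℤ) (r A : ℤ), r ∈ Y ∧ 0 ∉ Y ∧ (∀ i < m, x i ∉ Y ∧ x i ≠ 0) ∧
    (∀ i < m, ∀ j < m, x i = x j → i = j) ∧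
    Flow Y (insert 0 (Y.erase r)) (∑ i ∈ Finset.range m, k i • ({x i} : Multiset ℤ)) ∧
    (∀ y ∈ Y, A ≤ y ∧ y < A + (m + L + ∑ i ∈ Finset.range m, k i : ℕ)) ∧
    (∀ i < m, A ≤ x i ∧ x i < A + (m + L + ∑ i ∈ Finset.range m, k i : ℕ)) ∧
    A ≤ 0 ∧ 0 < A + (m + L + ∑ i ∈ Finset.range m, k i : ℕ)

theorem lab_cases (i : ℕ) : (i % 2 = 0 ∧ lab i = (i : ℤ) + 1) ∨ (i % 2 = 1 ∧ lab i = -(i : ℤ)) := by
  unfold lab
  rcases Nat.mod_two_eq_zero_or_one i with h | h
  · left
    exact ⟨h, if_pos h⟩
  · right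
    exact ⟨h, if_neg (by omega)⟩

theorem data_odd (p L : ℕ) (k : ℕ → ℕ) (hk : ∀ i j, i ≤ j → j < 2 * p + 1 → k j ≤ k i)
    (h1 : ∀ i < 2 * p + 1, 1 ≤ k i) (hL : 2 * p + 1 ≤ L) : Data (2 * p + 1) L k := by
  obtain ⟨D, E, h2, h3⟩ := core p k hk h1
  refine ⟨lab, Ico (-(2 * p + 1) - (D : ℤ)) (-(2 * p + 1) + 1) ∪ Ico (2 * p + 2) (4 * p + 2 + (E : ℤ)),
    -(2 * p + 1) - (D : ℤ), -(2 * p + 1) - (D : ℤ), ?_, ?_, ?_, ?_, ?_, ?_, ?_, ?_, ?_⟩
  rotate_left 4
  · refine h3.congr rfl ?_ rfl
    ext x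
    simp only [Finset.mem_union, Finset.mem_Ico, Finset.mem_Ioc, Finset.mem_singleton,
      Finset.mem_insert, Finset.mem_erase]
    omega
  · intro y hy
    simp only [Finset.mem_union, Finset.mem_Ico] at hy
    push_cast [h2]
    omega
  · intro i hi
    rcases lab_cases i with ⟨h4, h5⟩ | ⟨h4, h5⟩ <;> rw [h5] <;> push_cast [h2] <;> omega
  · omega
  · push_cast [h2]
    omega
  · simp only [Finset.mem_union, Finset.mem_Ico]
    omega
  · simp only [Finset.mem_union, Finset.mem_Ico]
    omega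
  · intro i hi
    simp only [Finset.mem_union, Finset.mem_Ico]
    rcases lab_cases i with ⟨h4, h5⟩ | ⟨h4, h5⟩ <;> rw [h5] <;> omega
  · intro i _ j _ hij
    rcases lab_cases i with ⟨h4, h5⟩ | ⟨h4, h5⟩ <;> rcases lab_cases j with ⟨h6, h7⟩ | ⟨h6, h7⟩ <;>
      rw [h5, h7] at hij <;> omega

end Lob
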