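import Mathlib

/-!
# Harmonious graphs
-/

set_option autoImplicit false

namespace Lob

/-- The finite simple graph `G` is harmonious: it has `q ≥ 1` edges and there is a map
`f : V → ℤ/q` which is injective, except that when `G` is a tree exactly one value is taken by
two vertices and every other value by exactly one vertex, and such that the sums `f x + f y` over
all edges `x y` are pairwise distinct. -/
def Harmonious {V : Type} [Fintype V] (G : SimpleGraph V) : Prop :=
  1 ≤ G.edgeSet.ncard ∧ ∃ f : V → ZMod G.edgeSet.ncard,
    (¬ G.IsTree → Function.Injective f) ∧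
    (G.IsTree → ∃ a, {v | f v = a}.ncard = 2 ∧ ∀ b, b ≠ a → {v | f v = b}.ncard = 1) ∧
    ∀ x y x' y', G.Adj x y → G.Adj x' y' → f x + f y = f x' + f y' → s(x, y) = s(x', y')

end Lob
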