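import Pool.Agent.H39.LOB.Core

/-!
# The integer configurations for an even number of labels
-/

set_option autoImplicit false

namespace Lob

open Finset

/-- few leaves at the last label: `s = k (2 p + 1)` hops of length `2` -/
theorem data_even_small (p L : ℕ) (hp : 1 ≤ p) (k : ℕ → ℕ)
    (hk : ∀ i j, i ≤ j → j < 2 * p + 2 → k j ≤ k i)
    (h1 : ∀ i < 2 * p + 2, 1 ≤ k i) (hL : 2 * p + k (2 * p + 1) ≤ L) : Data (2 * p + 2) L k := by
  obtain ⟨D, E, h2, h3⟩ := core p k (fun i j hij hj => hk i j hij (by omega))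
    (fun i hi => h1 i (by omega))
  obtain ⟨s, hs⟩ : ∃ s, s = k (2 * p + 1) := ⟨_, rfl⟩
  have hs1 : 1 ≤ s := by rw [hs]; exact h1 _ (by omega)
  rw [← hs] at hL
  have hx : ∀ i, (i < 2 * p + 1 → (if i < 2 * p + 1 then lab i else 2) = lab i) := fun i hi => if_pos hi
  have hsum : ∑ i ∈ Finset.range (2 * p + 2), k i = D + E + (2 * p + 1) + s := by
    rw [show 2 * p + 2 = 2 * p + 1 + 1 from rfl, Finset.sum_range_succ, h2, ← hs]
  have hcase : ∀ i < 2 * p + 2, (i % 2 = 0 ∧ i < 2 * p + 1 ∧ (if i < 2 * p + 1 then lab i else 2) = (i : ℤ) + 1) ∨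
      (i % 2 = 1 ∧ i < 2 * p + 1 ∧ (if i < 2 * p + 1 then lab i else 2) = -(i : ℤ)) ∨
      (i = 2 * p + 1 ∧ (if i < 2 * p + 1 then lab i else 2) = 2) := by
    intro i hi
    by_cases h : i < 2 * p + 1
    · rw [if_pos h]
      rcases lab_cases i with ⟨h4, h5⟩ | ⟨h4, h5⟩
      · left
        exact ⟨h4, h, h5⟩
      · right; left
        exact ⟨h4, h, h5⟩
    · right; right
      exact ⟨by omega, if_neg h⟩
  refine ⟨fun i => if i < 2 * p + 1 then lab i else 2,
    Ev (-(2 * p + 1) - (D : ℤ) - 2 * s) s ∪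
      (Ico (-(2 * p + 1) - (D : ℤ)) (-(2 * p + 1) + 1) ∪ Ico (2 * p + 2) (4 * p + 2 + (E : ℤ))),
    -(2 * p + 1) - (D : ℤ) - 2 * s, -(2 * p + 1) - (D : ℤ) - 2 * s, ?_, ?_, ?_, ?_, ?_, ?_, ?_, ?_, ?_⟩
  · rw [Finset.mem_union, mem_Ev]
    left
    omega
  · simp only [Finset.mem_union, Finset.mem_Ico, mem_Ev]
    omega
  · intro i hi
    simp only [Finset.mem_union, Finset.mem_Ico, mem_Ev]
    rcases hcase i hi with ⟨h4, h5, h6⟩ | ⟨h4, h5, h6⟩ | ⟨h4, h6⟩ <;> rw [h6] <;> omega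
  · intro i hi j hj hij
    simp only at hij
    rcases hcase i hi with ⟨h4, h5, h6⟩ | ⟨h4, h5, h6⟩ | ⟨h4, h6⟩ <;>
    rcases hcase j hj with ⟨h4', h5', h6'⟩ | ⟨h4', h5', h6'⟩ | ⟨h4', h6'⟩ <;>
    rw [h6, h6'] at hij <;> omega
  · have f1 := (Flow.ev (-(2 * p + 1) - (D : ℤ) - 2 * s) s).union h3 (by
        rw [Finset.disjoint_left]
        intro x hx hx'
        simp only [Finset.mem_union, Finset.mem_Ico, mem_Ev] at hx hx'
        omega) (by
        rw [Finset.disjoint_left]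
        intro x hx hx'
        simp only [Finset.mem_union, Finset.mem_Ico, Finset.mem_Ioc, Finset.mem_singleton, mem_Ev] at hx hx'
        omega)
    refine f1.congr rfl ?_ ?_
    · ext x
      simp only [Finset.mem_union, Finset.mem_Ico, Finset.mem_Ioc, Finset.mem_singleton,
        Finset.mem_insert, Finset.mem_erase, mem_Ev]
      omega
    · rw [show 2 * p + 2 = 2 * p + 1 + 1 from rfl, Finset.sum_range_succ, ← hs]
      beta_reduce
      rw [if_neg (by omega), add_comm]
      congr 1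
      unfold mult
      refine Finset.sum_congr rfl fun i hi => ?_
      rw [if_pos (Finset.mem_range.mp hi)]
  · intro y hy
    simp only [Finset.mem_union, Finset.mem_Ico, mem_Ev] at hy
    rw [hsum]
    push_cast
    omega
  · intro i hi
    rw [hsum]
    push_cast
    rcases hcase i hi with ⟨h4, h5, h6⟩ | ⟨h4, h5, h6⟩ | ⟨h4, h6⟩ <;> rw [h6] <;> omega
  · omega
  · rw [hsum]
    push_cast
    omega

/-- many leaves at the last label: rotations -/
theorem data_even_large (p L : ℕ) (hp : 1 ≤ p) (k : ℕ → ℕ)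
    (hk : ∀ i j, i ≤ j → j < 2 * p + 2 → k j ≤ k i)
    (h1 : ∀ i < 2 * p + 2, 1 ≤ k i) (hs : 2 * p + 1 ≤ k (2 * p + 1)) (hL : 4 * p ≤ L) :
    Data (2 * p + 2) L k := by
  obtain ⟨c, t, hc, ht, hct⟩ : ∃ c t : ℕ, 1 ≤ c ∧ t < 2 * p + 1 ∧
      k (2 * p + 1) = c * (2 * p) + c + t := by
    refine ⟨k (2 * p + 1) / (2 * p + 1), k (2 * p + 1) % (2 * p + 1), ?_, ?_, ?_⟩
    · exact (Nat.one_le_div_iff (by omega)).mpr hs
    · exact Nat.mod_lt _ (by omega)
    · have := Nat.div_add_mod (k (2 * p + 1)) (2 * p + 1)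
      nlinarith [this]
  have hkk := hk (2 * p) (2 * p + 1) (by omega) (by omega)
  obtain ⟨w, hw⟩ : ∃ w, w = c * (2 * p) := ⟨_, rfl⟩
  rw [← hw] at hct
  obtain ⟨k2, hk2⟩ : ∃ k2 : ℕ → ℕ, k2 = fun i => if i < 2 * p then k i else k (2 * p) - w - t :=
    ⟨_, rfl⟩
  have hk2a : ∀ i < 2 * p, k2 i = k i := fun i hi => by rw [hk2]; exact if_pos hi
  have hk2b : k2 (2 * p) + w + t = k (2 * p) := by
    rw [hk2]
    simp only [lt_irrefl, if_false]
    omega
  obtain ⟨D, E, h2, h3⟩ := core p k2 (by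
      intro i j hij hj
      by_cases hj' : j < 2 * p
      · rw [hk2a i (by omega), hk2a j hj']
        exact hk i j hij (by omega)
      · have : j = 2 * p := by omega
        subst this
        by_cases hi' : i < 2 * p
        · rw [hk2a i hi']
          have := hk i (2 * p) hij (by omega)
          omega
        · have : i = 2 * p := by omega
          subst this
          exact le_rfl) (by
      intro i hi
      by_cases hi' : i < 2 * p
      · rw [hk2a i hi']
        exact h1 i (by omega)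
      · have : i = 2 * p := by omega
        subst this
        omega)
  obtain ⟨W, hW⟩ : ∃ W, W = c * (2 * (2 * p) + 1) := ⟨_, rfl⟩
  have hWw : W = 2 * w + c := by
    rw [hW, hw]
    ring
  have hsum : ∑ i ∈ Finset.range (2 * p + 2), k i = D + E + (2 * p + 1) + W + 2 * t := by
    have e1 : ∑ i ∈ Finset.range (2 * p), k i = ∑ i ∈ Finset.range (2 * p), k2 i :=
      Finset.sum_congr rfl fun i hi => (hk2a i (Finset.mem_range.mp hi)).symm
    rw [Finset.sum_range_succ] at h2
    rw [show 2 * p + 2 = 2 * p + 1 + 1 from rfl, Finset.sum_range_succ, Finset.sum_range_succ, e1]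
    omega
  have hcase : ∀ i < 2 * p + 2, (i % 2 = 0 ∧ i < 2 * p + 1 ∧
      (if i < 2 * p + 1 then lab i else -(2 * p : ℤ)) = (i : ℤ) + 1) ∨
      (i % 2 = 1 ∧ i < 2 * p + 1 ∧ (if i < 2 * p + 1 then lab i else -(2 * p : ℤ)) = -(i : ℤ)) ∨
      (i = 2 * p + 1 ∧ (if i < 2 * p + 1 then lab i else -(2 * p : ℤ)) = -(2 * p : ℤ)) := by
    intro i hi
    by_cases h : i < 2 * p + 1
    · rw [if_pos h]
      rcases lab_cases i with ⟨h4, h5⟩ | ⟨h4, h5⟩
      · left
        exact ⟨h4, h, h5⟩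
      · right; left
        exact ⟨h4, h, h5⟩
    · right; right
      exact ⟨by omega, if_neg h⟩
  -- the start piece
  have s1 := Flow.const (-(2 * p + 1) - (D : ℤ) - 2 * p - t) (2 * p + 1) t
  have s2 := Flow.const (-(2 * p + 1) - (D : ℤ) - t) (-(2 * p : ℤ)) t
  have s3 := s1.union s2 (by
      rw [Finset.disjoint_left]
      intro x hx hx'
      simp only [Finset.mem_Ico] at hx hx'
      omega) (by
      rw [Finset.disjoint_left]
      intro x hx hx'
      simp only [Finset.mem_Ico] at hx hx'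
      omega)
  have s4 := (closed_rot (2 * p)).nsmul c (4 * p + 2 + (E : ℤ))
  rw [← hW] at s4
  have s5 := h3.union s4 (by
      rw [Finset.disjoint_left]
      intro x hx hx'
      simp only [Finset.mem_union, Finset.mem_Ico] at hx hx'
      omega) (by
      rw [Finset.disjoint_left]
      intro x hx hx'
      simp only [Finset.mem_union, Finset.mem_Ico, Finset.mem_Ioc, Finset.mem_singleton] at hx hx'
      omega)
  have s6 := s3.union s5 (by
      rw [Finset.disjoint_left]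
      intro x hx hx'
      simp only [Finset.mem_union, Finset.mem_Ico] at hx hx'
      omega) (by
      rw [Finset.disjoint_left]
      intro x hx hx'
      simp only [Finset.mem_union, Finset.mem_Ico, Finset.mem_Ioc, Finset.mem_singleton] at hx hx'
      omega)
  refine ⟨fun i => if i < 2 * p + 1 then lab i else -(2 * p : ℤ),
    (Ico (-(2 * p + 1) - (D : ℤ) - 2 * p - t) (-(2 * p + 1) - (D : ℤ) - 2 * p - t + t) ∪
      Ico (-(2 * p + 1) - (D : ℤ) - t) (-(2 * p + 1) - (D : ℤ) - t + t)) ∪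
      (Ico (-(2 * p + 1) - (D : ℤ)) (-(2 * p + 1) + 1) ∪ Ico (2 * p + 2) (4 * p + 2 + (E : ℤ)) ∪
        Ico (4 * p + 2 + (E : ℤ)) (4 * p + 2 + (E : ℤ) + W)),
    -(2 * p + 1) - (D : ℤ) - t, -(2 * p + 1) - (D : ℤ) - 2 * p - t, ?_, ?_, ?_, ?_, ?_, ?_, ?_, ?_, ?_⟩
  · simp only [Finset.mem_union, Finset.mem_Ico]
    omega
  · simp only [Finset.mem_union, Finset.mem_Ico]
    omega
  · intro i hi
    simp only [Finset.mem_union, Finset.mem_Ico]
    rcases hcase i hi with ⟨h4, h5, h6⟩ | ⟨h4, h5, h6⟩ | ⟨h4, h6⟩ <;> rw [h6] <;> omega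
  · intro i hi j hj hij
    simp only at hij
    rcases hcase i hi with ⟨h4, h5, h6⟩ | ⟨h4, h5, h6⟩ | ⟨h4, h6⟩ <;>
    rcases hcase j hj with ⟨h4', h5', h6'⟩ | ⟨h4', h5', h6'⟩ | ⟨h4', h6'⟩ <;>
    rw [h6, h6'] at hij <;> omega
  · refine s6.congr rfl ?_ ?_
    · ext x
      simp only [Finset.mem_union, Finset.mem_Ico, Finset.mem_Ioc, Finset.mem_singleton,
        Finset.mem_insert, Finset.mem_erase]
      omega
    · have e1 : ∑ i ∈ Finset.range (2 * p), k i • ({if i < 2 * p + 1 then lab i else -(2 * p : ℤ)} : Multiset ℤ)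
          = ∑ i ∈ Finset.range (2 * p), k2 i • ({lab i} : Multiset ℤ) :=
        Finset.sum_congr rfl fun i hi => by
          have := Finset.mem_range.mp hi
          rw [if_pos (by omega), hk2a i this]
      have e0 : lab (2 * p) = 2 * p + 1 := by
        unfold lab
        rw [if_pos (by omega)]
        push_cast
        rfl
      rw [show 2 * p + 2 = 2 * p + 1 + 1 from rfl, Finset.sum_range_succ, Finset.sum_range_succ, e1]
      beta_reduce
      rw [if_pos (by omega), if_neg (by omega), e0, mult_succ, e0]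
      unfold mult
      rw [← hk2b, hct, hw]
      push_cast
      simp only [add_nsmul, nsmul_add, mul_nsmul', one_nsmul]
      abel
  · intro y hy
    simp only [Finset.mem_union, Finset.mem_Ico] at hy
    rw [hsum]
    push_cast
    omega
  · intro i hi
    rw [hsum]
    push_cast
    rcases hcase i hi with ⟨h4, h5, h6⟩ | ⟨h4, h5, h6⟩ | ⟨h4, h6⟩ <;> rw [h6] <;> omega
  · omega
  · rw [hsum]
    push_cast
    omega

theorem data_all (m L : ℕ) (hm : 3 ≤ m) (k : ℕ → ℕ) (hk : ∀ i j, i ≤ j → j < m → k j ≤ k i)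
    (h1 : ∀ i < m, 1 ≤ k i) (h2 : (Odd m ∧ m ≤ L) ∨ (Even m ∧ 2 * m ≤ L + 4)) : Data m L k := by
  rcases h2 with ⟨⟨p, hp⟩, h3⟩ | ⟨⟨p, hp⟩, h3⟩
  · subst hp
    exact data_odd p L k hk h1 h3
  · obtain ⟨p', rfl⟩ : ∃ p', p = p' + 1 := ⟨p - 1, by omega⟩
    obtain rfl : m = 2 * p' + 2 := by omega
    by_cases h4 : 2 * p' + 1 ≤ k (2 * p' + 1)
    · exact data_even_large p' L (by omega) k hk h1 h4 (by omega)
    · exact data_even_small p' L (by omega) k hk h1 (by omega)

end Lob
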