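import Mathlib

/-!
# Displacement flows on finite sets of integers

`Flow S T s`: there is a bijection `y ↦ y + g y` from `S` onto `T` with multiset of displacements `s`.
-/

set_option autoImplicit false

namespace Lob

open Finset

/-- `y ↦ y + g y` is a bijection from `S` onto `T`, and `s` is the multiset of its displacements. -/
def Flow (S T : Finset ℤ) (s : Multiset ℤ) : Prop :=
  ∃ g : ℤ → ℤ, Set.InjOn (fun y => y + g y) (S : Set ℤ) ∧ S.image (fun y => y + g y) = T ∧
    S.val.map g = s

theorem Flow.card_eq {S T : Finset ℤ} {s : Multiset ℤ} (h : Flow S T s) : Multiset.card s = S.card := by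
  obtain ⟨g, -, -, h3⟩ := h
  rw [← h3, Multiset.card_map]
  rfl

theorem Flow.empty : Flow ∅ ∅ 0 := ⟨fun _ => 0, by simp, by simp, by simp⟩

theorem Flow.single (y d : ℤ) : Flow {y} {y + d} {d} :=
  ⟨fun _ => d, by simp, by simp, by simp⟩

theorem Flow.union {S T S' T' : Finset ℤ} {s s' : Multiset ℤ} (h : Flow S T s) (h' : Flow S' T' s')
    (hS : Disjoint S S') (hT : Disjoint T T') : Flow (S ∪ S') (T ∪ T') (s + s') := by
  classical
  obtain ⟨g, hg1, hg2, hg3⟩ := h
  obtain ⟨g', hg1', hg2', hg3'⟩ := h'
  have e1 : ∀ y ∈ S, (if y ∈ S then g y else g' y) = g y := fun y hy => if_pos hy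
  have e2 : ∀ y ∈ S', (if y ∈ S then g y else g' y) = g' y := fun y hy =>
    if_neg (fun h => Finset.disjoint_left.mp hS h hy)
  refine ⟨fun y => if y ∈ S then g y else g' y, ?_, ?_, ?_⟩
  · intro a ha b hb hab
    simp only at hab
    rw [Finset.coe_union] at ha hb
    rcases ha with ha | ha <;> rcases hb with hb | hb
    · rw [e1 a ha, e1 b hb] at hab
      exact hg1 ha hb hab
    · rw [e1 a ha, e2 b hb] at hab
      have h1 : a + g a ∈ T := by rw [← hg2]; exact Finset.mem_image_of_mem (fun y => y + g y) ha
      have h2 : b + g' b ∈ T' := by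
        rw [← hg2']; exact Finset.mem_image_of_mem (fun y => y + g' y) hb
      rw [hab] at h1
      exact absurd h2 (Finset.disjoint_left.mp hT h1)
    · rw [e2 a ha, e1 b hb] at hab
      have h1 : b + g b ∈ T := by rw [← hg2]; exact Finset.mem_image_of_mem (fun y => y + g y) hb
      have h2 : a + g' a ∈ T' := by
        rw [← hg2']; exact Finset.mem_image_of_mem (fun y => y + g' y) ha
      rw [← hab] at h1
      exact absurd h2 (Finset.disjoint_left.mp hT h1)
    · rw [e2 a ha, e2 b hb] at hab
      exact hg1' ha hb hab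
  · rw [Finset.image_union, ← hg2, ← hg2']
    congr 1
    · exact Finset.image_congr fun y hy => by simp only [e1 y hy]
    · exact Finset.image_congr fun y hy => by simp only [e2 y hy]
  · have e3 : (S ∪ S').val = S.val + S'.val := by
      rw [← Finset.disjUnion_eq_union S S' hS]
      rfl
    rw [e3, Multiset.map_add, ← hg3, ← hg3']
    congr 1
    · exact Multiset.map_congr rfl fun y hy => e1 y hy
    · exact Multiset.map_congr rfl fun y hy => e2 y hy

/-- `s` is the multiset of displacements of a permutation of every interval of length `n`. -/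
def Closed (n : ℕ) (s : Multiset ℤ) : Prop := ∀ a : ℤ, Flow (Ico a (a + n)) (Ico a (a + n)) s

/-- `s` is the multiset of displacements of a bijection from `[a, a + n)` onto `(a, a + n]`. -/
def PathF (n : ℕ) (s : Multiset ℤ) : Prop := ∀ a : ℤ, Flow (Ico a (a + n)) (Ioc a (a + n)) s

theorem Closed.zero : Closed 0 0 := fun a => by
  simpa using Flow.empty

theorem PathF.zero : PathF 0 0 := fun a => by
  simpa using Flow.empty

theorem Ico_union (a : ℤ) (n n' : ℕ) :
    Ico a (a + (n + n' : ℕ)) = Ico a (a + n) ∪ Ico (a + n) (a + n + n') := by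
  ext x
  simp only [Finset.mem_union, Finset.mem_Ico]
  push_cast
  omega

theorem Ioc_union (a : ℤ) (n n' : ℕ) :
    Ioc a (a + (n + n' : ℕ)) = Ioc a (a + n) ∪ Ioc (a + n) (a + n + n') := by
  ext x
  simp only [Finset.mem_union, Finset.mem_Ioc]
  push_cast
  omega

theorem Closed.add {n n' : ℕ} {s s' : Multiset ℤ} (h : Closed n s) (h' : Closed n' s') :
    Closed (n + n') (s + s') := fun a => by
  rw [Ico_union]
  refine (h a).union (h' (a + n)) ?_ ?_ <;>
  · rw [Finset.disjoint_left]
    intro x hx hx'
    rw [Finset.mem_Ico] at hx hx'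
    omega

theorem PathF.add {n n' : ℕ} {s s' : Multiset ℤ} (h : PathF n s) (h' : PathF n' s') :
    PathF (n + n') (s + s') := fun a => by
  rw [Ico_union, Ioc_union]
  refine (h a).union (h' (a + n)) ?_ ?_
  · rw [Finset.disjoint_left]
    intro x hx hx'
    rw [Finset.mem_Ico] at hx hx'
    omega
  · rw [Finset.disjoint_left]
    intro x hx hx'
    rw [Finset.mem_Ioc] at hx hx'
    omega

theorem Closed.nsmul {n : ℕ} {s : Multiset ℤ} (h : Closed n s) (c : ℕ) :
    Closed (c * n) (c • s) := by
  induction c with
  | zero => simpa using Closed.zero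
  | succ c ih =>
    rw [Nat.succ_mul, succ_nsmul]
    exact ih.add h

theorem PathF.nsmul {n : ℕ} {s : Multiset ℤ} (h : PathF n s) (c : ℕ) :
    PathF (c * n) (c • s) := by
  induction c with
  | zero => simpa using PathF.zero
  | succ c ih =>
    rw [Nat.succ_mul, succ_nsmul]
    exact ih.add h

/-- The labels `1, -1, 3, -3, 5, -5, …`. -/
def lab (i : ℕ) : ℤ := if i % 2 = 0 then (i : ℤ) + 1 else -(i : ℤ)

/-- One copy of each of the labels `lab 0, …, lab (n - 1)`. -/
def full (n : ℕ) : Multiset ℤ := (Multiset.range n).map lab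

theorem full_succ (n : ℕ) : full (n + 1) = full n + {lab n} := by
  unfold full
  rw [Multiset.range_succ, Multiset.map_cons, ← Multiset.singleton_add, add_comm]

/-- nested 2-cycles -/
theorem closed_full (p : ℕ) : Closed (2 * p) (full (2 * p)) := by
  induction p with
  | zero => simpa [full] using Closed.zero
  | succ p ih =>
    intro a
    have e1 : full (2 * (p + 1)) = full (2 * p) + ({((2 * p + 1 : ℕ) : ℤ)} + {-((2 * p + 1 : ℕ) : ℤ)}) := by
      rw [show 2 * (p + 1) = 2 * p + 1 + 1 by ring, full_succ, full_succ, add_assoc]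
      congr 2
      · unfold lab
        rw [if_pos (by omega)]
        push_cast
        rfl
      · unfold lab
        rw [if_neg (by omega)]
    rw [e1]
    have e2 : Ico a (a + (2 * (p + 1) : ℕ)) = Ico (a + 1) (a + 1 + (2 * p : ℕ)) ∪
        ({a} ∪ {a + (2 * p + 1 : ℕ)}) := by
      ext x
      simp only [Finset.mem_union, Finset.mem_Ico, Finset.mem_singleton]
      push_cast
      omega
    have e3 : Ico a (a + (2 * (p + 1) : ℕ)) = Ico (a + 1) (a + 1 + (2 * p : ℕ)) ∪
        ({a + (2 * p + 1 : ℕ)} ∪ {a}) := by
      rw [e2, Finset.union_comm {a}]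
    have f1 := Flow.single a ((2 * p + 1 : ℕ) : ℤ)
    have f2 := Flow.single (a + (2 * p + 1 : ℕ)) (-((2 * p + 1 : ℕ) : ℤ))
    rw [add_neg_cancel_right] at f2
    have f3 := f1.union f2 (by
        rw [Finset.disjoint_singleton]
        push_cast
        omega) (by
        rw [Finset.disjoint_singleton]
        push_cast
        omega)
    have f4 := (ih (a + 1)).union f3 (by
        rw [Finset.disjoint_left]
        intro x hx hx'
        simp only [Finset.mem_union, Finset.mem_Ico, Finset.mem_singleton] at hx hx'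
        push_cast at hx hx'
        omega) (by
        rw [Finset.disjoint_left]
        intro x hx hx'
        simp only [Finset.mem_union, Finset.mem_Ico, Finset.mem_singleton] at hx hx'
        push_cast at hx hx'
        omega)
    rw [← e2, ← e3] at f4
    exact f4

/-- a hop over a nested block -/
theorem path_full (p : ℕ) : PathF (2 * p + 1) (full (2 * p + 1)) := by
  intro a
  have e0 : lab (2 * p) = ((2 * p + 1 : ℕ) : ℤ) := by
    unfold lab
    rw [if_pos (by omega)]
    push_cast
    rfl
  rw [full_succ, e0]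
  have f1 := Flow.single a ((2 * p + 1 : ℕ) : ℤ)
  have f2 := (closed_full p (a + 1)).union f1 (by
      rw [Finset.disjoint_left]
      intro x hx hx'
      simp only [Finset.mem_Ico, Finset.mem_singleton] at hx hx'
      omega) (by
      rw [Finset.disjoint_left]
      intro x hx hx'
      simp only [Finset.mem_Ico, Finset.mem_singleton] at hx hx'
      push_cast at hx hx'
      omega)
  have e1 : Ico (a + 1) (a + 1 + (2 * p : ℕ)) ∪ {a} = Ico a (a + (2 * p + 1 : ℕ)) := by
    ext x
    simp only [Finset.mem_union, Finset.mem_Ico, Finset.mem_singleton]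
    push_cast
    omega
  have e2 : Ico (a + 1) (a + 1 + (2 * p : ℕ)) ∪ {a + (2 * p + 1 : ℕ)} = Ioc a (a + (2 * p + 1 : ℕ)) := by
    ext x
    simp only [Finset.mem_union, Finset.mem_Ico, Finset.mem_Ioc, Finset.mem_singleton]
    push_cast
    omega
  rw [e1, e2] at f2
  exact f2

/-- multiplicities `k 0, …, k (n-1)` of the labels `lab 0, …, lab (n-1)` -/
def mult (n : ℕ) (k : ℕ → ℕ) : Multiset ℤ := ∑ i ∈ Finset.range n, k i • ({lab i} : Multiset ℤ)

theorem mult_succ (n : ℕ) (k : ℕ → ℕ) : mult (n + 1) k = mult n k + k n • {lab n} := by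
  unfold mult
  rw [Finset.sum_range_succ]

theorem full_eq_sum (n : ℕ) : full n = ∑ i ∈ Finset.range n, ({lab i} : Multiset ℤ) := by
  induction n with
  | zero => simp [full]
  | succ n ih => rw [full_succ, Finset.sum_range_succ, ih]

/-- peeling off `c` copies of all labels -/
theorem mult_peel (n : ℕ) (k : ℕ → ℕ) (c : ℕ) (h : ∀ i < n, c ≤ k i) :
    mult n k = mult n (fun i => k i - c) + c • full n := by
  rw [full_eq_sum, Finset.smul_sum]
  unfold mult
  rw [← Finset.sum_add_distrib]
  refine Finset.sum_congr rfl fun i hi => ?_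
  rw [← add_nsmul, Nat.sub_add_cancel (h i (Finset.mem_range.mp hi))]

/-- the general packing lemma -/
theorem packing (n : ℕ) : ∀ k : ℕ → ℕ, (∀ i j, i ≤ j → j < n → k j ≤ k i) →
    ∃ (D E : ℕ) (s t : Multiset ℤ), mult n k = s + t ∧ PathF D s ∧ Closed E t := by
  induction n with
  | zero =>
    intro k _
    exact ⟨0, 0, 0, 0, by simp [mult], PathF.zero, Closed.zero⟩
  | succ n ih =>
    intro k hk
    have h1 := mult_peel (n + 1) k (k n) fun i hi => hk i n (by omega) (by omega)
    have h0 := mult_succ n (fun i => k i - k n)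
    simp only [Nat.sub_self, zero_smul, add_zero] at h0
    rw [h0] at h1
    obtain ⟨D, E, s, t, h2, h3, h4⟩ := ih (fun i => k i - k n) fun i j hij hj =>
      Nat.sub_le_sub_right (hk i j hij (by omega)) _
    rcases Nat.even_or_odd' (n + 1) with ⟨p, hp | hp⟩
    · refine ⟨D, E + k n * (n + 1), s, t + k n • full (n + 1), ?_, h3, ?_⟩
      · rw [h1, h2, add_assoc]
      · have h5 := closed_full p
        rw [← hp] at h5
        exact h4.add (h5.nsmul _)
    · refine ⟨D + k n * (n + 1), E, s + k n • full (n + 1), t, ?_, ?_, h4⟩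
      · rw [h1, h2]
        abel
      · have h5 := path_full p
        rw [← hp] at h5
        exact h3.add (h5.nsmul _)

end Lob
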