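import Pool.Agent.H39.LOB.Defs
import Pool.Agent.H39.LOB.Even

/-!
# From the integer configurations to harmonious labelings
-/

set_option autoImplicit false

namespace Lob

open Finset

theorem exists_image_eq {V : Type} [DecidableEq V] (S : Finset V) (T : Finset ℤ) (h : S.card = T.card) :
    ∃ f : V → ℤ, S.image f = T := by
  classical
  let e := Finset.equivOfCardEq h
  refine ⟨fun v => if hv : v ∈ S then (e ⟨v, hv⟩).1 else 0, ?_⟩
  ext z
  rw [Finset.mem_image]
  constructor
  · rintro ⟨v, hv, rfl⟩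
    rw [dif_pos hv]
    exact (e ⟨v, hv⟩).2
  · intro hz
    refine ⟨(e.symm ⟨z, hz⟩).1, (e.symm ⟨z, hz⟩).2, ?_⟩
    rw [dif_pos (e.symm ⟨z, hz⟩).2]
    simp

theorem two_fiber {V W : Type} [Fintype V] [Fintype W] (f : V → W) (hf : Function.Surjective f)
    (h : Fintype.card V = Fintype.card W + 1) :
    ∃ a, {v | f v = a}.ncard = 2 ∧ ∀ b, b ≠ a → {v | f v = b}.ncard = 1 := by
  classical
  have h1 : ¬ Function.Injective f := by
    intro hi
    have := Fintype.card_le_of_injective f hi
    omega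
  rw [Function.Injective] at h1
  push Not at h1
  obtain ⟨u, v, huv, hne⟩ := h1
  -- restriction to the complement of `u`
  have h2 : Function.Surjective (fun w : {w : V // w ≠ u} => f w.1) := by
    intro b
    obtain ⟨w, hw⟩ := hf b
    by_cases hwu : w = u
    · exact ⟨⟨v, hne.symm⟩, by rw [← hw, hwu, huv]⟩
    · exact ⟨⟨w, hwu⟩, hw⟩
  have h3 : Fintype.card {w : V // w ≠ u} = Fintype.card W := by
    rw [Fintype.card_subtype_compl, Fintype.card_subtype_eq]
    omega
  have h4 : Function.Injective (fun w : {w : V // w ≠ u} => f w.1) :=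
    ((Fintype.bijective_iff_surjective_and_card _).mpr ⟨h2, h3⟩).1
  have h5 : ∀ w w' : V, w ≠ u → w' ≠ u → f w = f w' → w = w' := by
    intro w w' hw hw' hww
    have := @h4 ⟨w, hw⟩ ⟨w', hw'⟩ hww
    exact congrArg Subtype.val this
  refine ⟨f u, ?_, ?_⟩
  · have : {w | f w = f u} = {u, v} := by
      ext w
      simp only [Set.mem_setOf_eq, Set.mem_insert_iff, Set.mem_singleton_iff]
      constructor
      · intro hw
        by_cases hwu : w = u
        · exact Or.inl hwu
        · exact Or.inr (h5 w v hwu hne.symm (by rw [hw, huv]))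
      · rintro (rfl | rfl)
        · rfl
        · exact huv.symm
    rw [this, Set.ncard_pair hne]
  · intro b hb
    obtain ⟨w, hw⟩ := hf b
    rw [Set.ncard_eq_one]
    refine ⟨w, ?_⟩
    ext w'
    simp only [Set.mem_setOf_eq, Set.mem_singleton_iff]
    constructor
    · intro hw'
      refine h5 w' w ?_ ?_ (by rw [hw, hw'])
      · rintro rfl
        exact hb hw'.symm
      · rintro rfl
        exact hb hw.symm
    · rintro rfl
      exact hw

theorem exists_rep (q : ℕ) [NeZero q] (A : ℤ) (b : ZMod q) : ∃ z : ℤ, A ≤ z ∧ z < A + q ∧ (z : ZMod q) = b := by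
  refine ⟨A + ((b - (A : ZMod q)).val : ℤ), by omega, ?_, ?_⟩
  · have := ZMod.val_lt (b - (A : ZMod q))
    omega
  · push_cast
    rw [ZMod.natCast_zmod_val]
    ring

/-- sorted enumeration of a finite set -/
theorem exists_sorted {V : Type} [DecidableEq V] (S : Finset V) (m : ℕ) (hm : S.card = m) (hm1 : 1 ≤ m)
    (k : V → ℕ) : ∃ a : ℕ → V, (∀ i < m, a i ∈ S) ∧ (∀ i < m, ∀ j < m, a i = a j → i = j) ∧
      (∀ v ∈ S, ∃ i < m, a i = v) ∧ ∀ i j, i ≤ j → j < m → k (a j) ≤ k (a i) := by
  classical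
  let e : Fin m ≃ S := (Finset.equivFinOfCardEq hm).symm
  let f0 : Fin m → ℤ := fun i => -(k (e i).1 : ℤ)
  let σ := Tuple.sort f0
  have hσ : Monotone (f0 ∘ σ) := Tuple.monotone_sort f0
  have h0 : 0 < m := hm1
  refine ⟨fun i => if h : i < m then (e (σ ⟨i, h⟩)).1 else (e ⟨0, h0⟩).1, ?_, ?_, ?_, ?_⟩
  · intro i hi
    simp only [hi, dif_pos]
    exact (e (σ ⟨i, hi⟩)).2
  · intro i hi j hj hij
    simp only [hi, hj, dif_pos] at hij
    have h1 := e.injective (Subtype.ext hij)
    have h2 := σ.injective h1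
    exact congrArg Fin.val h2
  · intro v hv
    refine ⟨(σ.symm (e.symm ⟨v, hv⟩)).1, (σ.symm (e.symm ⟨v, hv⟩)).2, ?_⟩
    beta_reduce
    rw [dif_pos (σ.symm (e.symm ⟨v, hv⟩)).2]
    simp
  · intro i j hij hj
    have hi : i < m := lt_of_le_of_lt hij hj
    simp only [hi, hj, dif_pos]
    have h1 := hσ (show (⟨i, hi⟩ : Fin m) ≤ ⟨j, hj⟩ from hij)
    simp only [f0, Function.comp_apply] at h1
    omega

theorem count_displ (m : ℕ) (k : ℕ → ℕ) (x : ℕ → ℤ) (hx : ∀ i < m, ∀ j < m, x i = x j → i = j)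
    (i : ℕ) (hi : i < m) :
    Multiset.count (x i) (∑ j ∈ Finset.range m, k j • ({x j} : Multiset ℤ)) = k i := by
  rw [Multiset.count_sum']
  rw [Finset.sum_eq_single i]
  · rw [Multiset.count_nsmul, Multiset.count_singleton_self, mul_one]
  · intro j hj hji
    rw [Multiset.count_nsmul, Multiset.count_singleton, if_neg, mul_zero]
    intro h
    exact hji (hx j (Finset.mem_range.mp hj) i hi h.symm)
  · intro h
    exact absurd (Finset.mem_range.mpr hi) h

end Lob
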