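import Pool.Agent.H39.LOB.Graph

/-!
# Trees with a centre: the main theorem
-/

set_option autoImplicit false

namespace Lob

open Finset

theorem harmonious_of_data {V : Type} [Fintype V] [DecidableEq V] (G : SimpleGraph V) (hG : G.IsTree)
    (c : V) (par : V → V) (hpar : ∀ v, v ≠ c → G.Adj v (par v))
    (hedge : ∀ a b, G.Adj a b → (a ≠ c ∧ par a = b) ∨ (b ≠ c ∧ par b = a))
    (XS LS YS : Finset V) (hcover : ∀ v, v = c ∨ v ∈ XS ∨ v ∈ LS ∨ v ∈ YS)
    (hX : ∀ v ∈ XS, v ≠ c ∧ par v = c ∧ v ∉ LS ∧ v ∉ YS)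
    (hL : ∀ v ∈ LS, v ≠ c ∧ par v = c ∧ v ∉ YS)
    (hY : ∀ v ∈ YS, v ≠ c ∧ par v ∈ XS)
    (m L : ℕ) (hm : XS.card = m) (hm1 : 1 ≤ m) (hLc : LS.card = L) (hL1 : 1 ≤ L)
    (hdata : ∀ k : ℕ → ℕ, (∀ i j, i ≤ j → j < m → k j ≤ k i) →
      (∀ i < m, ∃ v ∈ XS, k i = (YS.filter (fun y => par y = v)).card) → Data m L k) :
    Harmonious G := by
  classical
  obtain ⟨a, ha1, ha2, ha3, ha4⟩ := exists_sorted XS m hm hm1 (fun v => (YS.filter (fun y => par y = v)).card)
  obtain ⟨k, hk⟩ : ∃ k : ℕ → ℕ, ∀ i, k i = (YS.filter (fun y => par y = a i)).card := ⟨_, fun _ => rfl⟩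
  obtain ⟨x, Y, r, A, hr, h0Y, hxY, hxinj, ⟨g, hg1, hg2, hg3⟩, hYb, hxb, hA0, hA1⟩ := hdata k
    (fun i j hij hj => by rw [hk, hk]; exact ha4 i j hij hj) (fun i hi => ⟨a i, ha1 i hi, hk i⟩)
  obtain ⟨q, hq⟩ : ∃ q, q = m + L + ∑ i ∈ Finset.range m, k i := ⟨_, rfl⟩
  rw [← hq] at hYb hxb hA1
  -- cardinality of YS
  have hYScard : YS.card = ∑ i ∈ Finset.range m, k i := by
    have e1 : YS = (Finset.range m).biUnion (fun i => YS.filter (fun y => par y = a i)) := by
      ext y
      rw [Finset.mem_biUnion]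
      constructor
      · intro hy
        obtain ⟨i, hi, hai⟩ := ha3 (par y) (hY y hy).2
        exact ⟨i, Finset.mem_range.mpr hi, Finset.mem_filter.mpr ⟨hy, hai.symm⟩⟩
      · rintro ⟨i, _, hy⟩
        exact (Finset.mem_filter.mp hy).1
    have e2 := congrArg Finset.card e1
    rw [e2, Finset.card_biUnion]
    · exact Finset.sum_congr rfl fun i _ => (hk i).symm
    · intro i hi j hj hij
      show Disjoint (YS.filter (fun y => par y = a i)) (YS.filter (fun y => par y = a j))
      rw [Finset.disjoint_left]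
      intro y hy hy'
      rw [Finset.mem_filter] at hy hy'
      exact hij (ha2 i (Finset.mem_range.mp hi) j (Finset.mem_range.mp hj) (hy.2.symm.trans hy'.2))
  have hVcard : Fintype.card V = q + 1 := by
    have e1 : (Finset.univ : Finset V) = {c} ∪ (XS ∪ (LS ∪ YS)) := by
      ext v
      simp only [Finset.mem_univ, Finset.mem_union, Finset.mem_singleton, true_iff]
      exact hcover v
    rw [← Finset.card_univ, e1, Finset.card_union_of_disjoint, Finset.card_union_of_disjoint,
      Finset.card_union_of_disjoint, Finset.card_singleton, hm, hLc, hYScard, hq]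
    · ring
    · rw [Finset.disjoint_left]
      exact fun v hv => (hL v hv).2.2
    · rw [Finset.disjoint_left]
      intro v hv hv'
      rw [Finset.mem_union] at hv'
      rcases hv' with h | h
      · exact (hX v hv).2.2.1 h
      · exact (hX v hv).2.2.2 h
    · rw [Finset.disjoint_left]
      intro v hv hv'
      rw [Finset.mem_singleton] at hv
      simp only [Finset.mem_union] at hv'
      subst hv
      rcases hv' with h | h | h
      · exact (hX v h).1 rfl
      · exact (hL v h).1 rfl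
      · exact (hY v h).1 rfl
  have hq1 : 1 ≤ q := by omega
  haveI : NeZero q := ⟨by omega⟩
  -- number of edges
  have hE : G.edgeSet.ncard = q := by
    have h1 := hG.card_edgeFinset
    rw [hVcard] at h1
    have h2 : G.edgeSet.ncard = G.edgeFinset.card := by
      rw [Set.ncard_eq_toFinset_card']
      rfl
    omega
  -- the remaining labels
  obtain ⟨R, hR⟩ : ∃ R : Finset ℤ, R = Finset.Ico A (A + q) \ (insert 0 ((Finset.range m).image x ∪ Y)) :=
    ⟨_, rfl⟩
  have hYc : Y.card = ∑ i ∈ Finset.range m, k i := by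
    have h1 := congrArg Multiset.card hg3
    rw [Multiset.card_map] at h1
    have h2 := Multiset.card_sum (Finset.range m) (fun i => k i • ({x i} : Multiset ℤ))
    rw [h2] at h1
    simp only [Multiset.card_nsmul, Multiset.card_singleton, mul_one] at h1
    exact h1
  have hRc : R.card + 1 = L := by
    have h1 : (insert 0 ((Finset.range m).image x ∪ Y)).card = 1 + m + ∑ i ∈ Finset.range m, k i := by
      rw [Finset.card_insert_of_notMem, Finset.card_union_of_disjoint, Finset.card_image_of_injOn,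
        Finset.card_range, hYc]
      · ring
      · intro i hi j hj hij
        exact hxinj i (Finset.mem_range.mp hi) j (Finset.mem_range.mp hj) hij
      · rw [Finset.disjoint_left]
        intro z hz hz'
        obtain ⟨i, hi, rfl⟩ := Finset.mem_image.mp hz
        exact (hxY i (Finset.mem_range.mp hi)).1 hz'
      · rw [Finset.mem_union, not_or]
        refine ⟨fun h => ?_, h0Y⟩
        obtain ⟨i, hi, h⟩ := Finset.mem_image.mp h
        exact (hxY i (Finset.mem_range.mp hi)).2 h
    have h2 : insert 0 ((Finset.range m).image x ∪ Y) ⊆ Finset.Ico A (A + q) := by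
      intro z hz
      rw [Finset.mem_Ico]
      rcases Finset.mem_insert.mp hz with rfl | hz
      · exact ⟨hA0, hA1⟩
      · rcases Finset.mem_union.mp hz with hz | hz
        · obtain ⟨i, hi, rfl⟩ := Finset.mem_image.mp hz
          exact hxb i (Finset.mem_range.mp hi)
        · exact hYb z hz
    have h3 := Finset.card_sdiff_add_card_eq_card h2
    rw [← hR, h1, Int.card_Ico] at h3
    omega
  obtain ⟨l0, hl0⟩ : LS.Nonempty := Finset.card_pos.mp (by omega)
  obtain ⟨fL, hfL⟩ := exists_image_eq (LS.erase l0) R (by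
    rw [Finset.card_erase_of_mem hl0]
    omega)
  have hfY : ∀ i, ∃ f : V → ℤ, i < m → (YS.filter (fun y => par y = a i)).image f = Y.filter (fun y => g y = x i) := by
    intro i
    by_cases hi : i < m
    · obtain ⟨f, hf⟩ := exists_image_eq (YS.filter (fun y => par y = a i)) (Y.filter (fun y => g y = x i)) (by
        rw [← hk, ← count_displ m k x hxinj i hi, ← hg3, Multiset.count_map]
        simp only [eq_comm]
        rfl)
      exact ⟨f, fun _ => hf⟩
    · exact ⟨fun _ => 0, fun h => absurd h hi⟩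
  choose fY hfY using hfY
  -- index of a vertex of XS
  have hidx : ∀ v : V, ∃ i, v ∈ XS → i < m ∧ a i = v := by
    intro v
    by_cases hv : v ∈ XS
    · obtain ⟨i, hi, hai⟩ := ha3 v hv
      exact ⟨i, fun _ => ⟨hi, hai⟩⟩
    · exact ⟨0, fun h => absurd h hv⟩
  choose idx hidx using hidx
  obtain ⟨F, hF⟩ : ∃ F : V → ℤ, ∀ v, F v = if v = c then 0 else if v ∈ XS then x (idx v) else
      if v = l0 then r else if v ∈ LS then fL v else fY (idx (par v)) v := ⟨_, fun _ => rfl⟩
  have hFc : F c = 0 := by rw [hF, if_pos rfl]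
  have hFX : ∀ i < m, F (a i) = x i := by
    intro i hi
    have h1 := ha1 i hi
    have h2 := hidx (a i) h1
    rw [hF, if_neg (hX _ h1).1, if_pos h1, ha2 _ h2.1 i hi h2.2]
  have hFl0 : F l0 = r := by
    rw [hF, if_neg (hL l0 hl0).1, if_neg (fun h => (hX l0 h).2.2.1 hl0), if_pos rfl]
  have hFL : ∀ v ∈ LS.erase l0, F v = fL v := by
    intro v hv
    have hv1 := Finset.mem_of_mem_erase hv
    rw [hF, if_neg (hL v hv1).1, if_neg (fun h => (hX v h).2.2.1 hv1), if_neg (Finset.ne_of_mem_erase hv),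
      if_pos hv1]
  have hFY : ∀ i < m, ∀ v ∈ YS, par v = a i → F v = fY i v := by
    intro i hi v hv hpv
    have h1 := hidx (par v) (hY v hv).2
    rw [hF, if_neg (hY v hv).1, if_neg (fun h => (hX v h).2.2.2 hv), if_neg, if_neg, 
      ha2 _ h1.1 i hi (h1.2.trans hpv)]
    · exact fun h => (hL v h).2.2 hv
    · rintro rfl
      exact (hL v hl0).2.2 hv
  -- points of Y
  have hYpt : ∀ z ∈ Y, ∃ v ∈ YS, F v = z ∧ F (par v) = g z := by
    intro z hz
    have h1 : g z ∈ Multiset.map g Y.val := Multiset.mem_map_of_mem g hz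
    rw [hg3, Multiset.mem_sum] at h1
    obtain ⟨i, hi, h1⟩ := h1
    have hi' := Finset.mem_range.mp hi
    have h2 : g z = x i := Multiset.mem_singleton.mp (Multiset.mem_of_mem_nsmul h1)
    have h3 : z ∈ (YS.filter (fun y => par y = a i)).image (fY i) := by
      rw [hfY i hi', Finset.mem_filter]
      exact ⟨hz, h2⟩
    obtain ⟨v, hv, hvz⟩ := Finset.mem_image.mp h3
    obtain ⟨hv1, hv2⟩ := Finset.mem_filter.mp hv
    refine ⟨v, hv1, ?_, ?_⟩
    · rw [hFY i hi' v hv1 hv2, hvz]
    · rw [hv2, hFX i hi', h2]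
  have hRpt : ∀ z ∈ R, ∃ v ∈ LS, F v = z := by
    intro z hz
    rw [← hfL] at hz
    obtain ⟨v, hv, hvz⟩ := Finset.mem_image.mp hz
    exact ⟨v, Finset.mem_of_mem_erase hv, by rw [hFL v hv, hvz]⟩
  have hcases : ∀ z : ℤ, A ≤ z → z < A + q → z = 0 ∨ (∃ i < m, z = x i) ∨ z ∈ Y ∨ z ∈ R := by
    intro z hz1 hz2
    by_cases h : z ∈ insert 0 ((Finset.range m).image x ∪ Y)
    · rcases Finset.mem_insert.mp h with h | h
      · exact Or.inl h
      · rcases Finset.mem_union.mp h with h | h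
        · obtain ⟨i, hi, h⟩ := Finset.mem_image.mp h
          exact Or.inr (Or.inl ⟨i, Finset.mem_range.mp hi, h.symm⟩)
        · exact Or.inr (Or.inr (Or.inl h))
    · right; right; right
      rw [hR, Finset.mem_sdiff, Finset.mem_Ico]
      exact ⟨⟨hz1, hz2⟩, h⟩
  have hsurj : Function.Surjective (fun v : V => (F v : ZMod q)) := by
    intro b
    obtain ⟨z, hz1, hz2, hzb⟩ := exists_rep q A b
    rcases hcases z hz1 hz2 with h | ⟨i, hi, h⟩ | h | h
    · exact ⟨c, by simp only [hFc, ← hzb, h]⟩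
    · exact ⟨a i, by simp only [hFX i hi, ← hzb, h]⟩
    · obtain ⟨v, -, hv, -⟩ := hYpt z h
      exact ⟨v, by simp only [hv, hzb]⟩
    · obtain ⟨v, -, hv⟩ := hRpt z h
      exact ⟨v, by simp only [hv, hzb]⟩
  have hsum : Function.Surjective (fun v : {v : V // v ≠ c} => ((F v.1 : ZMod q) + (F (par v.1) : ZMod q))) := by
    intro b
    obtain ⟨z, hz1, hz2, hzb⟩ := exists_rep q A b
    have hY0 : z ∈ insert 0 (Y.erase r) → ∃ v : {v : V // v ≠ c}, (F v.1 : ZMod q) + (F (par v.1) : ZMod q) = b := by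
      intro h
      rw [← hg2] at h
      obtain ⟨z', hz', hzz⟩ := Finset.mem_image.mp h
      obtain ⟨v, hv1, hv2, hv3⟩ := hYpt z' hz'
      refine ⟨⟨v, (hY v hv1).1⟩, ?_⟩
      rw [← hzb, ← hzz, ← Int.cast_add, hv2, hv3]
    rcases hcases z hz1 hz2 with h | ⟨i, hi, h⟩ | h | h
    · exact hY0 (by rw [h]; exact Finset.mem_insert_self _ _)
    · refine ⟨⟨a i, (hX _ (ha1 i hi)).1⟩, ?_⟩
      simp only
      rw [(hX _ (ha1 i hi)).2.1, hFc, hFX i hi, ← h, hzb]
      simp
    · by_cases hzr : z = r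
      · refine ⟨⟨l0, (hL _ hl0).1⟩, ?_⟩
        simp only
        rw [(hL _ hl0).2.1, hFc, hFl0, ← hzr, hzb]
        simp
      · exact hY0 (Finset.mem_insert_of_mem (Finset.mem_erase.mpr ⟨hzr, h⟩))
    · obtain ⟨v, hv1, hv⟩ := hRpt z h
      refine ⟨⟨v, (hL _ hv1).1⟩, ?_⟩
      simp only
      rw [(hL _ hv1).2.1, hFc, hv, hzb]
      simp
  have hinj : Function.Injective (fun v : {v : V // v ≠ c} => ((F v.1 : ZMod q) + (F (par v.1) : ZMod q))) := by
    refine ((Fintype.bijective_iff_surjective_and_card _).mpr ⟨hsum, ?_⟩).1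
    rw [Fintype.card_subtype_compl, Fintype.card_subtype_eq, hVcard, ZMod.card]
    omega
  unfold Harmonious
  rw [hE]
  refine ⟨hq1, fun v => (F v : ZMod q), fun h => absurd hG h, fun _ => ?_, ?_⟩
  · refine two_fiber _ hsurj ?_
    rw [hVcard, ZMod.card]
  · have key : ∀ u v, G.Adj u v → ∃ w : {v : V // v ≠ c}, s(u, v) = s(w.1, par w.1) ∧
        (F u : ZMod q) + (F v : ZMod q) = (F w.1 : ZMod q) + (F (par w.1) : ZMod q) := by
      intro u v huv
      rcases hedge u v huv with ⟨h1, h2⟩ | ⟨h1, h2⟩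
      · exact ⟨⟨u, h1⟩, by rw [h2], by rw [h2]⟩
      · exact ⟨⟨v, h1⟩, by rw [h2]; exact Sym2.eq_swap, by rw [h2, add_comm]⟩
    intro u v u' v' huv huv' hs
    obtain ⟨w, hw1, hw2⟩ := key u v huv
    obtain ⟨w', hw1', hw2'⟩ := key u' v' huv'
    have : w = w' := hinj (by
      show (F w.1 : ZMod q) + (F (par w.1) : ZMod q) = (F w'.1 : ZMod q) + (F (par w'.1) : ZMod q)
      rw [← hw2, ← hw2', hs])
    rw [hw1, hw1', this]

end Lob
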